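import Pool.Agent.SKQ.Stmts
import Pool.Agent.SKQ.Kit

/-!
# DG1: the integral of `h(f) det F` is a multiple of the integral of `h`
-/

set_option autoImplicit false

namespace Pool.Agent.SKQ.H76

open Metric Set Filter Topology MeasureTheory
open scoped ENNReal Convolution
open Helper22QC Pool.Agent.SKQ

variable {n : ℕ}

theorem ex_rad {K : Set (E n)} (hK : IsCompact K) (hKb : K ⊆ ball 0 1) :
    ∃ ρ : ℝ, 0 ≤ ρ ∧ ρ < 1 ∧ K ⊆ closedBall 0 ρ := by
  rcases K.eq_empty_or_nonempty with rfl | hne
  · exact ⟨0, le_rfl, one_pos, empty_subset _⟩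
  · obtain ⟨x, hx, hm⟩ := hK.exists_isMaxOn hne continuous_norm.continuousOn
    refine ⟨‖x‖, norm_nonneg _, by simpa using hKb hx, fun y hy => ?_⟩
    rw [mem_closedBall_zero_iff]
    exact hm hy

/-- a smooth cut-off -/
theorem ex_cut {ρ : ℝ} (h0 : 0 ≤ ρ) (h1 : ρ < 1) : ∃ (φ : E n → ℝ) (S : Set (E n)),
    ContDiff ℝ (⊤ : ℕ∞) φ ∧ IsCompact S ∧ S ⊆ ball 0 1 ∧ (∀ y, y ∉ S → φ y = 0) ∧
      ∀ y ∈ closedBall (0 : E n) ρ, φ =ᶠ[𝓝 y] 1 := by
  let b : ContDiffBump (0 : E n) := ⟨(2 * ρ + 1) / 3, (ρ + 2) / 3, by linarith, by linarith⟩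
  have hb1 : b.rIn = (2 * ρ + 1) / 3 := rfl
  have hb2 : b.rOut = (ρ + 2) / 3 := rfl
  refine ⟨b, closedBall 0 b.rOut, b.contDiff, isCompact_closedBall _ _, ?_, ?_, ?_⟩
  · refine closedBall_subset_ball ?_
    rw [hb2]
    linarith
  · intro y hy
    refine b.zero_of_le_dist ?_
    rw [mem_closedBall, not_le] at hy
    exact hy.le
  · intro y hy
    refine b.eventuallyEq_one_of_mem_ball ?_
    rw [mem_ball, hb1]
    rw [mem_closedBall] at hy
    linarith

/-- the preimage -/
noncomputable def pre (f : E n → E n) (K : Set (E n)) : Set (E n) :=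
  Function.invFunOn f (ball 0 1) '' K

variable {K : ℝ} {f : E n → E n} {F : E n → Mt n}

theorem pre_compact (hf : Glo K f F) {A : Set (E n)} (hA : IsCompact A) (hAb : A ⊆ ball 0 1) :
    IsCompact (pre f A) := hA.image_of_continuousOn (hf.inv.mono hAb)

theorem pre_sub (hf : Glo K f F) {A : Set (E n)} (hAb : A ⊆ ball 0 1) :
    pre f A ⊆ ball 0 1 := by
  rintro _ ⟨z, hz, rfl⟩
  exact Function.invFunOn_mem (hf.bij.surjOn (hAb hz))

theorem mem_pre (hf : Glo K f F) {A : Set (E n)} {y : E n} (hy : y ∈ ball (0 : E n) 1)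
    (h : f y ∈ A) : y ∈ pre f A :=
  ⟨f y, h, hf.bij.injOn.leftInvOn_invFunOn hy⟩

theorem f_cont (hf : Glo K f F) : ContinuousOn f (ball 0 1) := by
  exact hf.sob.continuousOn isOpen_ball

theorem dv_id : dv (fun z : E n => z) = fun _ => (n : ℝ) := by
  funext z
  unfold dv
  have h1 : fderiv ℝ (fun z : E n => z) z = ContinuousLinearMap.id ℝ (E n) := fderiv_id'
  rw [h1]
  simp

theorem dv_smul {h : E n → ℝ} (hh : ContDiff ℝ (⊤ : ℕ∞) h) (a z : E n) :
    dv (fun z => h z • a) z = fderiv ℝ h z a := by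
  unfold dv
  have hd : DifferentiableAt ℝ h z := (hh.differentiable (by simp)).differentiableAt
  have h1 : fderiv ℝ (fun z => h z • a) z = (fderiv ℝ h z).smulRight a := by
    rw [fderiv_smul_const hd]
  rw [h1]
  have h2 : ∀ i, ((fderiv ℝ h z).smulRight a (EuclideanSpace.single i 1)) i =
      fderiv ℝ h z (EuclideanSpace.single i 1) * a i := by
    intro i
    simp
  simp_rw [h2]
  have h3 : a = ∑ i, a i • (EuclideanSpace.single i (1 : ℝ) : E n) := by
    have := (EuclideanSpace.basisFun (Fin n) ℝ).sum_repr a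
    simpa using this.symm
  conv_rhs => rw [h3]
  rw [map_sum]
  refine Finset.sum_congr rfl fun i _ => ?_
  rw [map_smul, smul_eq_mul, mul_comm]

theorem grc_zero {φ : E n → ℝ} {y : E n} (h : φ =ᶠ[𝓝 y] 1) :
    grc (fun p : E n × E n => φ p.1) f F y = 0 := by
  unfold grc
  have h1 : (fun p : E n × E n => φ p.1) =ᶠ[𝓝 (y, f y)] fun _ => (1 : ℝ) :=
    (continuous_fst.tendsto (y, f y)).eventually h
  rw [h1.fderiv_eq]
  simp [gr_zero]

theorem adjV_zero' (M : Mt n) : adjV M 0 = 0 := map_zero _

theorem smooth_fst {φ : E n → ℝ} (hφ : ContDiff ℝ (⊤ : ℕ∞) φ) :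
    ContDiff ℝ (⊤ : ℕ∞) fun p : E n × E n => φ p.1 := hφ.comp contDiff_fst

/-- the determinant is locally integrable -/
theorem det_int (nlg : NLGStmt) (hn : 1 ≤ n) (hf : Glo K f F) {C : Set (E n)} (hC : IsCompact C)
    (hCb : C ⊆ ball 0 1) : IntegrableOn (fun y => (F y).det) C := by
  obtain ⟨ρ, h0, h1, h2⟩ := ex_rad hC hCb
  obtain ⟨φ, S, hφ, hS, hSb, hφ0, hφ1⟩ := ex_cut (n := n) h0 h1
  have h3 := (nlg n (ball 0 1) S f (fun z => z) F (fun p => φ p.1) hn isOpen_ball hf.sob hS hSb
    contDiff_id (smooth_fst hφ) (fun y hy z => hφ0 y hy)).2.1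
  have h4 : IntegrableOn (fun y => φ y * dv (fun z : E n => z) (f y) * (F y).det / (n : ℝ)) C :=
    (h3.mono_set hCb).div_const (n : ℝ)
  refine IntegrableOn.congr_fun h4 (fun y hy => ?_) hC.measurableSet
  have e1 : φ y = 1 := (hφ1 y (h2 hy)).self_of_nhds
  have hn' : (n : ℝ) ≠ 0 := by
    have : (1 : ℝ) ≤ n := by exact_mod_cast hn
    linarith
  simp only [e1, dv_id, one_mul]
  field_simp

/-- step (1) -/
theorem lam_deriv (nlg : NLGStmt) (hn : 1 ≤ n) (hf : Glo K f F) {h : E n → ℝ}
    (hh : ContDiff ℝ (⊤ : ℕ∞) h) (hc : HasCompactSupport h) (hs : tsupport h ⊆ ball 0 1)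
    (a : E n) : ∫ y in ball (0 : E n) 1, fderiv ℝ h (f y) a * (F y).det = 0 := by
  obtain ⟨ρ, h0, h1, h2⟩ := ex_rad (pre_compact hf hc hs) (pre_sub hf hs)
  obtain ⟨φ, S, hφ, hS, hSb, hφ0, hφ1⟩ := ex_cut (n := n) h0 h1
  have h3 := (nlg n (ball 0 1) S f (fun z => h z • a) F (fun p => φ p.1) hn isOpen_ball hf.sob hS
    hSb (hh.smul contDiff_const) (smooth_fst hφ) (fun y hy z => hφ0 y hy)).2.2
  have h4 : ∫ y in ball (0 : E n) 1, inner ℝ (adjV (F y) (h (f y) • a))
      (grc (fun p : E n × E n => φ p.1) f F y) = 0 := by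
    refine integral_eq_zero_of_ae ?_
    refine (ae_restrict_mem measurableSet_ball).mono fun y hy => ?_
    show inner ℝ (adjV (F y) (h (f y) • a)) (grc (fun p : E n × E n => φ p.1) f F y) = 0
    by_cases hy2 : f y ∈ tsupport h
    · rw [grc_zero (hφ1 y (h2 (mem_pre hf hy hy2)))]
      exact inner_zero_right _
    · rw [image_eq_zero_of_notMem_tsupport hy2, zero_smul, adjV_zero']
      exact inner_zero_left _
  rw [h4] at h3
  have h5 : ∫ y in ball (0 : E n) 1, fderiv ℝ h (f y) a * (F y).det =
      ∫ y in ball (0 : E n) 1, φ y * dv (fun z => h z • a) (f y) * (F y).det := by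
    refine integral_congr_ae ?_
    refine (ae_restrict_mem measurableSet_ball).mono fun y hy => ?_
    show fderiv ℝ h (f y) a * (F y).det = φ y * dv (fun z => h z • a) (f y) * (F y).det
    rw [dv_smul hh]
    by_cases hy2 : f y ∈ tsupport h
    · rw [(hφ1 y (h2 (mem_pre hf hy hy2))).self_of_nhds, Pi.one_apply, one_mul]
    · have : fderiv ℝ h (f y) = 0 := by
        have h6 : f y ∉ tsupport (fderiv ℝ h) := fun h7 => hy2 (tsupport_fderiv_subset ℝ h7)
        exact image_eq_zero_of_notMem_tsupport h6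
      rw [this]
      simp
  rw [h5]
  linarith

/-- the preimage of the closed ball of radius `r` -/
noncomputable abbrev CC (f : E n → E n) (r : ℝ) : Set (E n) := pre f (closedBall 0 r)

theorem CC_compact (hf : Glo K f F) {r : ℝ} (hr : r < 1) : IsCompact (CC f r) :=
  pre_compact hf (isCompact_closedBall _ _) (closedBall_subset_ball hr)

theorem CC_sub (hf : Glo K f F) {r : ℝ} (hr : r < 1) : CC f r ⊆ ball 0 1 :=
  pre_sub hf (closedBall_subset_ball hr)

theorem f_contC (hf : Glo K f F) {r : ℝ} (hr : r < 1) : ContinuousOn f (CC f r) :=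
  (f_cont hf).mono (CC_sub hf hr)

/-- restriction of the integral to the preimage -/
theorem int_ball_eq (hf : Glo K f F) {r : ℝ} (hr : r < 1) {g : E n → ℝ}
    (hg : ∀ x : E n, r < ‖x‖ → g x = 0) :
    ∫ y in ball (0 : E n) 1, g (f y) * (F y).det = ∫ y in CC f r, g (f y) * (F y).det := by
  refine setIntegral_eq_of_subset_of_forall_sdiff_eq_zero measurableSet_ball (CC_sub hf hr)
    fun y hy => ?_
  have h1 : f y ∉ closedBall (0 : E n) r := fun h => hy.2 (mem_pre hf hy.1 h)
  rw [mem_closedBall_zero_iff, not_le] at h1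
  rw [hg _ h1, zero_mul]

theorem fderiv_far {ψ : E n → ℝ} {δ : ℝ} (hψs : ∀ x : E n, δ ≤ ‖x‖ → ψ x = 0) {x : E n}
    (hx : δ < ‖x‖) : fderiv ℝ ψ x = 0 := by
  have h1 : ψ =ᶠ[𝓝 x] fun _ => (0 : ℝ) := by
    have h2 : {x : E n | δ < ‖x‖} ∈ 𝓝 x :=
      (isOpen_lt continuous_const continuous_norm).mem_nhds hx
    filter_upwards [h2] with w hw
    exact hψs w (le_of_lt hw)
  rw [h1.fderiv_eq]
  simp

theorem hcs {ψ : E n → ℝ} {δ : ℝ} (hψs : ∀ x : E n, δ ≤ ‖x‖ → ψ x = 0) :
    HasCompactSupport ψ := by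
  refine HasCompactSupport.of_support_subset_isCompact (isCompact_closedBall (0 : E n) δ) ?_
  intro x hx
  rw [mem_closedBall_zero_iff]
  by_contra h
  exact hx (hψs x (not_le.1 h).le)

/-- step (2): the averaged kernel is constant -/
theorem D_const (nlg : NLGStmt) (hn : 1 ≤ n) (hf : Glo K f F) {ψ : E n → ℝ}
    (hψ : ContDiff ℝ (⊤ : ℕ∞) ψ) {δ r : ℝ} (hδ : 0 < δ) (hψs : ∀ x : E n, δ ≤ ‖x‖ → ψ x = 0)
    (hr : r < 1) (hδr : δ < r) {z : E n} (hz : ‖z‖ < r - δ) :
    ∫ y in CC f r, ψ (f y - z) * (F y).det = ∫ y in CC f r, ψ (f y) * (F y).det := by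
  have hC := CC_compact hf hr
  have hdet := det_int nlg hn hf hC (CC_sub hf hr)
  have hfc := f_contC hf hr
  obtain ⟨M, hM⟩ := (hψ.continuous_fderiv (by simp)).bounded_above_of_compact_support
    ((hcs hψs).fderiv ℝ)
  obtain ⟨M', hM'⟩ := hψ.continuous.bounded_above_of_compact_support (hcs hψs)
  have hm1 : ∀ z : E n, AEStronglyMeasurable (fun y => fderiv ℝ ψ (f y - z))
      (volume.restrict (CC f r)) := by
    intro z
    refine ContinuousOn.aestronglyMeasurable ?_ hC.measurableSet
    exact (hψ.continuous_fderiv (by simp)).comp_continuousOn (hfc.sub continuousOn_const)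
  have hm2 : ∀ z : E n, AEStronglyMeasurable (fun y => ψ (f y - z))
      (volume.restrict (CC f r)) := by
    intro z
    refine ContinuousOn.aestronglyMeasurable ?_ hC.measurableSet
    exact hψ.continuous.comp_continuousOn (hfc.sub continuousOn_const)
  have hD : ∀ z : E n, HasFDerivAt (fun z => ∫ y in CC f r, ψ (f y - z) * (F y).det)
      (∫ y in CC f r, (F y).det • -(fderiv ℝ ψ (f y - z))) z := by
    intro z
    refine hasFDerivAt_integral_of_dominated_of_fderiv_le
      (F' := fun z y => (F y).det • -(fderiv ℝ ψ (f y - z)))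
      (bound := fun y => |(F y).det| * M) (univ_mem) ?_ ?_ ?_ ?_ ?_ ?_
    · exact Eventually.of_forall fun z => (hm2 z).mul hdet.aestronglyMeasurable
    · refine Integrable.mono' (hdet.abs.const_mul M') ((hm2 z).mul hdet.aestronglyMeasurable) ?_
      refine Eventually.of_forall fun y => ?_
      rw [norm_mul]
      exact mul_le_mul_of_nonneg_right (hM' _) (norm_nonneg _)
    · exact hdet.aestronglyMeasurable.smul (hm1 z).neg
    · refine Eventually.of_forall fun y z _ => ?_
      rw [norm_smul, norm_neg, Real.norm_eq_abs]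
      exact mul_le_mul_of_nonneg_left (hM _) (abs_nonneg _)
    · exact hdet.abs.mul_const M
    · refine Eventually.of_forall fun y z _ => ?_
      have h1 : HasFDerivAt ψ (fderiv ℝ ψ (f y - z)) (f y - z) :=
        (hψ.differentiable (by simp)).differentiableAt.hasFDerivAt
      have h2 : HasFDerivAt (fun z : E n => f y - z) (-(ContinuousLinearMap.id ℝ (E n))) z :=
        (hasFDerivAt_id z).const_sub (f y)
      have h3 := (h1.comp z h2).mul_const (F y).det
      have h4 : (fderiv ℝ ψ (f y - z)).comp (-(ContinuousLinearMap.id ℝ (E n))) =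
          -(fderiv ℝ ψ (f y - z)) := by
        ext v
        simp
      rw [h4] at h3
      exact h3
  have hD0 : ∀ z : E n, ‖z‖ < r - δ → ∫ y in CC f r, (F y).det • -(fderiv ℝ ψ (f y - z)) = 0 := by
    intro z hz
    have hi : Integrable (fun y => (F y).det • -(fderiv ℝ ψ (f y - z)))
        (volume.restrict (CC f r)) := by
      refine Integrable.mono' (hdet.abs.mul_const M)
        (hdet.aestronglyMeasurable.smul (hm1 z).neg) ?_
      refine Eventually.of_forall fun y => ?_
      rw [norm_smul, norm_neg, Real.norm_eq_abs]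
      exact mul_le_mul_of_nonneg_left (hM _) (abs_nonneg _)
    ext a
    rw [ContinuousLinearMap.integral_apply hi]
    show _ = (0 : ℝ)
    have hψz : ContDiff ℝ (⊤ : ℕ∞) fun x => ψ (x - z) := hψ.comp (contDiff_id.sub contDiff_const)
    have hsz : Function.support (fun x => ψ (x - z)) ⊆ closedBall z δ := by
      intro x hx
      rw [mem_closedBall, dist_eq_norm]
      by_contra h
      exact hx (hψs _ (not_le.1 h).le)
    have htz : tsupport (fun x => ψ (x - z)) ⊆ closedBall z δ :=
      closure_minimal hsz isClosed_closedBall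
    have hbz : closedBall z δ ⊆ ball 0 1 := by
      intro x hx
      rw [mem_closedBall, dist_eq_norm] at hx
      rw [mem_ball_zero_iff]
      have : ‖x‖ ≤ ‖x - z‖ + ‖z‖ := by
        have := norm_add_le (x - z) z
        rwa [sub_add_cancel] at this
      linarith
    have h1 := lam_deriv nlg hn hf hψz (HasCompactSupport.of_support_subset_isCompact
      (isCompact_closedBall z δ) hsz) (htz.trans hbz) a
    have h2 : ∀ x, fderiv ℝ (fun x => ψ (x - z)) x = fderiv ℝ ψ (x - z) := fun x =>
      fderiv_comp_sub (f := ψ) (x := x) z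
    have h3 := int_ball_eq (F := F) hf hr (g := fun x => fderiv ℝ (fun x => ψ (x - z)) x a) (by
      intro x hx
      rw [h2, fderiv_far hψs]
      · rfl
      · have := norm_sub_norm_le x z
        linarith)
    rw [h1] at h3
    have h4 : ∫ y in CC f r, ((F y).det • -(fderiv ℝ ψ (f y - z))) a =
        - ∫ y in CC f r, fderiv ℝ (fun x => ψ (x - z)) (f y) a * (F y).det := by
      rw [← integral_neg]
      refine integral_congr_ae (Eventually.of_forall fun y => ?_)
      show (F y).det * -(fderiv ℝ ψ (f y - z) a) =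
        -(fderiv ℝ (fun x => ψ (x - z)) (f y) a * (F y).det)
      rw [h2]
      ring
    rw [h4, ← h3, neg_zero]
  have hopen : IsOpen (ball (0 : E n) (r - δ)) := isOpen_ball
  have h1 := hopen.is_const_of_fderiv_eq_zero (𝕜 := ℝ)
    (f := fun z => ∫ y in CC f r, ψ (f y - z) * (F y).det)
    (convex_ball (0 : E n) (r - δ)).isPreconnected
    (fun z _ => (hD z).differentiableAt.differentiableWithinAt)
    (fun z hz => by
      rw [(hD z).fderiv, hD0 z (by simpa using hz)]
      rfl)
    (x := z) (y := 0) (by simpa using hz) (by simp; linarith)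
  have h2 : ∫ y in CC f r, ψ (f y - z) * (F y).det =
      ∫ y in CC f r, ψ (f y - 0) * (F y).det := h1
  rw [h2]
  simp only [sub_zero]

/-- Fubini -/
theorem fub (nlg : NLGStmt) (hn : 1 ≤ n) (hf : Glo K f F) {ψ : E n → ℝ}
    (hψ : ContDiff ℝ (⊤ : ℕ∞) ψ) {δ r : ℝ} (hδ : 0 < δ) (hψs : ∀ x : E n, δ ≤ ‖x‖ → ψ x = 0)
    (hr : r < 1) (hδr : δ < r) {h : E n → ℝ} (hh : Continuous h) (hc : HasCompactSupport h)
    (hs : ∀ z, h z ≠ 0 → ‖z‖ < r - δ) :
    ∫ y in CC f r, (∫ z, ψ (f y - z) * h z) * (F y).det =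
      (∫ y in CC f r, ψ (f y) * (F y).det) * ∫ z, h z := by
  have hC := CC_compact hf hr
  have hdet := det_int nlg hn hf hC (CC_sub hf hr)
  have hfc := f_contC hf hr
  obtain ⟨M', hM'⟩ := hψ.continuous.bounded_above_of_compact_support (hcs hψs)
  have hhi : Integrable h := hh.integrable_of_hasCompactSupport hc
  have hfm : AEStronglyMeasurable f (volume.restrict (CC f r)) :=
    hfc.aestronglyMeasurable hC.measurableSet
  have hint : Integrable (Function.uncurry fun (y z : E n) => ψ (f y - z) * h z * (F y).det)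
      ((volume.restrict (CC f r)).prod volume) := by
    have h1 : Integrable (fun p : E n × E n => (M' * |(F p.1).det|) * |h p.2|)
        ((volume.restrict (CC f r)).prod volume) :=
      (hdet.abs.const_mul M').mul_prod hhi.abs
    refine Integrable.mono' h1 ?_ (Eventually.of_forall fun p => ?_)
    · have a1 : AEStronglyMeasurable (fun p : E n × E n => f p.1)
          ((volume.restrict (CC f r)).prod volume) := hfm.comp_fst
      have a2 : AEStronglyMeasurable (fun p : E n × E n => ψ (f p.1 - p.2))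
          ((volume.restrict (CC f r)).prod volume) :=
        hψ.continuous.comp_aestronglyMeasurable
          (a1.sub continuous_snd.aestronglyMeasurable)
      exact (a2.mul (hh.comp continuous_snd).aestronglyMeasurable).mul
        hdet.aestronglyMeasurable.comp_fst
    · show ‖ψ (f p.1 - p.2) * h p.2 * (F p.1).det‖ ≤ _
      rw [norm_mul, norm_mul, Real.norm_eq_abs (h p.2), Real.norm_eq_abs (F p.1).det]
      have := hM' (f p.1 - p.2)
      calc ‖ψ (f p.1 - p.2)‖ * |h p.2| * |(F p.1).det| ≤ M' * |h p.2| * |(F p.1).det| := by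
            gcongr
        _ = M' * |(F p.1).det| * |h p.2| := by ring
  have h1 : ∫ y in CC f r, (∫ z, ψ (f y - z) * h z) * (F y).det =
      ∫ y in CC f r, ∫ z, ψ (f y - z) * h z * (F y).det := by
    refine integral_congr_ae (Eventually.of_forall fun y => ?_)
    show (∫ z, ψ (f y - z) * h z) * (F y).det = ∫ z, ψ (f y - z) * h z * (F y).det
    rw [integral_mul_const]
  rw [h1, integral_integral_swap hint, ← integral_const_mul]
  refine integral_congr_ae (Eventually.of_forall fun z => ?_)
  show ∫ y in CC f r, ψ (f y - z) * h z * (F y).det =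
    (∫ y in CC f r, ψ (f y) * (F y).det) * h z
  by_cases hz : h z = 0
  · simp [hz]
  · rw [← D_const nlg hn hf hψ hδ hψs hr hδr (hs z hz), ← integral_mul_const]
    refine integral_congr_ae (Eventually.of_forall fun y => ?_)
    show ψ (f y - z) * h z * (F y).det = ψ (f y - z) * (F y).det * h z
    ring

/-- a sequence of bumps -/
noncomputable def bk (n k : ℕ) : ContDiffBump (0 : E n) :=
  ⟨1 / (2 * ((k : ℝ) + 1)), 1 / ((k : ℝ) + 1), by positivity, by
    apply one_div_lt_one_div_of_lt
    · positivity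
    · have : (0 : ℝ) ≤ k := Nat.cast_nonneg k
      linarith⟩

theorem bk_out (n k : ℕ) : (bk n k).rOut = 1 / ((k : ℝ) + 1) := rfl

theorem bk_tendsto (n : ℕ) : Tendsto (fun k => (bk n k).rOut) atTop (𝓝 0) :=
  tendsto_one_div_add_atTop_nhds_zero_nat

theorem bk_zero (n k : ℕ) (x : E n) (hx : (bk n k).rOut ≤ ‖x‖) :
    (bk n k).normed volume x = 0 := by
  by_contra h
  have h1 : x ∈ Function.support ((bk n k).normed (volume : Measure (E n))) := h
  rw [(bk n k).support_normed_eq, mem_ball_zero_iff] at h1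
  linarith

/-- the limit -/
theorem lim_claim (nlg : NLGStmt) (hn : 1 ≤ n) (hf : Glo K f F) {h : E n → ℝ}
    (hh : Continuous h) (hc : HasCompactSupport h) (hs : tsupport h ⊆ ball 0 1) :
    Tendsto (fun k => (∫ y in ball (0 : E n) 1, (bk n k).normed volume (f y) * (F y).det) *
      ∫ z, h z) atTop (𝓝 (∫ y in ball (0 : E n) 1, h (f y) * (F y).det)) := by
  obtain ⟨ρ, h0, h1, h2⟩ := ex_rad hc hs
  obtain ⟨r, hr⟩ : ∃ r : ℝ, r = (1 + ρ) / 2 := ⟨_, rfl⟩
  have hr1 : r < 1 := by rw [hr]; linarith
  have hρr : ρ < r := by rw [hr]; linarith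
  have hC := CC_compact hf hr1
  have hdet := det_int nlg hn hf hC (CC_sub hf hr1)
  have hfc := f_contC hf hr1
  obtain ⟨M, hM⟩ := hh.bounded_above_of_compact_support hc
  have hlim : Tendsto (fun k => ∫ y in CC f r, (∫ z, (bk n k).normed volume (f y - z) * h z) *
      (F y).det) atTop (𝓝 (∫ y in CC f r, h (f y) * (F y).det)) := by
    have hconv : ∀ k x, (∫ z, (bk n k).normed volume (x - z) * h z) =
        ((bk n k).normed volume ⋆[ContinuousLinearMap.lsmul ℝ ℝ, volume] h) x := by
      intro k x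
      rw [convolution_eq_swap]
      rfl
    have hcont : ∀ k, Continuous
        ((bk n k).normed volume ⋆[ContinuousLinearMap.lsmul ℝ ℝ, volume] h : E n → ℝ) := by
      intro k
      exact (bk n k).hasCompactSupport_normed.continuous_convolution_left _
        (bk n k).continuous_normed hh.locallyIntegrable
    have hbd : ∀ k x, ‖((bk n k).normed volume ⋆[ContinuousLinearMap.lsmul ℝ ℝ, volume] h :
        E n → ℝ) x‖ ≤ M := by
      intro k x
      have h3 : Integrable (fun t => (bk n k).normed (volume : Measure (E n)) t * M) :=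
        ((bk n k).integrable_normed (μ := (volume : Measure (E n)))).mul_const M
      have h4 : ‖∫ t, (bk n k).normed (volume : Measure (E n)) t * h (x - t)‖ ≤
          ∫ t, (bk n k).normed (volume : Measure (E n)) t * M := by
        refine norm_integral_le_of_norm_le h3 (Eventually.of_forall fun t => ?_)
        rw [norm_mul, Real.norm_of_nonneg ((bk n k).nonneg_normed t)]
        exact mul_le_mul_of_nonneg_left (hM _) ((bk n k).nonneg_normed t)
      rw [integral_mul_const, (bk n k).integral_normed, one_mul] at h4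
      exact h4
    simp_rw [hconv]
    refine tendsto_integral_of_dominated_convergence (fun y => M * |(F y).det|) ?_ ?_ ?_ ?_
    · intro k
      exact (((hcont k).comp_continuousOn hfc).aestronglyMeasurable hC.measurableSet).mul
        hdet.aestronglyMeasurable
    · exact hdet.abs.const_mul M
    · intro k
      refine Eventually.of_forall fun y => ?_
      rw [norm_mul, Real.norm_eq_abs (F y).det]
      exact mul_le_mul_of_nonneg_right (hbd k _) (abs_nonneg _)
    · refine Eventually.of_forall fun y => ?_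
      refine Tendsto.mul_const _ ?_
      exact ContDiffBump.convolution_tendsto_right_of_continuous (bk_tendsto n) hh (f y)
  have hh0 : ∀ x : E n, r < ‖x‖ → h x = 0 := by
    intro x hx
    by_contra h3
    have := h2 (subset_tsupport h h3)
    rw [mem_closedBall_zero_iff] at this
    linarith
  rw [int_ball_eq hf hr1 hh0]
  refine hlim.congr' ?_
  have hev := (bk_tendsto n).eventually (gt_mem_nhds (sub_pos.2 hρr))
  filter_upwards [hev] with k hk
  have hδ := (bk n k).rOut_pos
  rw [fub nlg hn hf (bk n k).contDiff_normed hδ (bk_zero n k) hr1 (by linarith) hh hc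
    (fun z hz => by
      have := h2 (subset_tsupport h hz)
      rw [mem_closedBall_zero_iff] at this
      linarith)]
  rw [int_ball_eq hf hr1 fun x hx => bk_zero n k x (by linarith)]

/-- DG1. -/
theorem dg1 (nlg : NLGStmt) : DG1Stmt := by
  intro n K f F hn hf
  let b : ContDiffBump (0 : E n) := ⟨1 / 4, 1 / 2, by norm_num, by norm_num⟩
  have hb2 : b.rOut = 1 / 2 := rfl
  have hbs : tsupport (b.normed (volume : Measure (E n))) ⊆ ball 0 1 := by
    rw [b.tsupport_normed_eq, hb2]
    exact closedBall_subset_ball (by norm_num)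
  have h0 := lim_claim nlg hn hf (h := b.normed volume) b.continuous_normed
    b.hasCompactSupport_normed hbs
  rw [b.integral_normed] at h0
  simp only [mul_one] at h0
  refine ⟨∫ y in ball (0 : E n) 1, b.normed volume (f y) * (F y).det, fun h hh hc hs => ?_⟩
  have h1 := lim_claim nlg hn hf hh hc hs
  exact tendsto_nhds_unique h1 (h0.mul_const _)

end Pool.Agent.SKQ.H76
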